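import Pool.Agent.MWL.Stmts

/-!
# Squad MWL, row DMX (helper51): the two divisors exist
-/

set_option autoImplicit false

namespace Pool.Agent.MWL.H51

open Pool.Agent.MVO Pool.Agent.MWL

/-- a set of naturals which contains `0`, is closed under addition and invariant modulo `n`
consists of the multiples of a divisor of `n` -/
theorem exists_div (n : ℕ) (hn : 1 ≤ n) (C : ℕ → Prop) (h0 : C 0)
    (hadd : ∀ c c', C c → C c' → C (c + c')) (hmod : ∀ c c', C c → c ≡ c' [MOD n] → C c') :
    ∃ d, d ∣ n ∧ ∀ c, C c ↔ d ∣ c := by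
  classical
  have hCn : C n := hmod 0 n h0 (by
    show 0 % n = n % n
    simp)
  have hmul : ∀ q c, C c → C (q * c) := by
    intro q c hc
    induction q with
    | zero => simpa using h0
    | succ q ih =>
      have := hadd _ _ ih hc
      rwa [← Nat.succ_mul] at this
  have hex : ∃ d, 0 < d ∧ C d := ⟨n, hn, hCn⟩
  obtain ⟨hd0, hdC⟩ := Nat.find_spec hex
  have hmin : ∀ r, r < Nat.find hex → C r → r = 0 := by
    intro r hr hC
    by_contra h
    exact Nat.find_min hex hr ⟨Nat.pos_of_ne_zero h, hC⟩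
  have key : ∀ c, C c ↔ Nat.find hex ∣ c := by
    intro c
    constructor
    · intro hc
      have hr : C (c % Nat.find hex) := by
        have h1 : C (c + (n - 1) * ((c / Nat.find hex) * Nat.find hex)) :=
          hadd _ _ hc (hmul _ _ (hmul _ _ hdC))
        refine hmod _ _ h1 ?_
        have h2 : c + (n - 1) * ((c / Nat.find hex) * Nat.find hex) =
            c % Nat.find hex + n * ((c / Nat.find hex) * Nat.find hex) := by
          have h3 := Nat.mod_add_div' c (Nat.find hex)
          obtain ⟨k, rfl⟩ : ∃ k, n = k + 1 := ⟨n - 1, by omega⟩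
          have h4 : k + 1 - 1 = k := rfl
          rw [h4]
          calc c + k * (c / Nat.find hex * Nat.find hex)
              = (c % Nat.find hex + c / Nat.find hex * Nat.find hex) +
                k * (c / Nat.find hex * Nat.find hex) := by rw [h3]
            _ = c % Nat.find hex + (k + 1) * (c / Nat.find hex * Nat.find hex) := by ring
        rw [h2]
        show (_ + n * _) % n = _ % n
        rw [Nat.add_mul_mod_self_left]
      exact Nat.dvd_of_mod_eq_zero (hmin _ (Nat.mod_lt _ hd0) hr)
    · rintro ⟨q, rfl⟩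
      rw [mul_comm]
      exact hmul _ _ hdC
  exact ⟨Nat.find hex, (key n).1 hCn, key⟩

theorem e0 {R : FC} {a b : ℕ → ℕ} {x y : ℕ} (h : R.R 0 a b) (ha : a 0 = x) (hb : b 0 = y) :
    R.R 0 (sg 0 x) (sg 0 y) := by
  refine R.ext ?_ ?_ h
  · intro j hj
    obtain rfl : j = 0 := by omega
    rw [ha]
    simp [sg]
  · intro j hj
    obtain rfl : j = 0 := by omega
    rw [hb]
    simp [sg]

theorem e1 {R : FC} {a b : ℕ → ℕ} {p q p' q' : ℕ} (h : R.R 1 a b) (h0 : a 0 = p) (h1 : a 1 = q)
    (h2 : b 0 = p') (h3 : b 1 = q') : R.R 1 (v2 p q) (v2 p' q') := by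
  refine R.ext ?_ ?_ h
  · intro j hj
    rcases Nat.lt_or_ge j 1 with hlt | hge
    · obtain rfl : j = 0 := by omega
      rw [h0]
      simp [v2]
    · obtain rfl : j = 1 := by omega
      rw [h1]
      simp [v2]
  · intro j hj
    rcases Nat.lt_or_ge j 1 with hlt | hge
    · obtain rfl : j = 0 := by omega
      rw [h2]
      simp [v2]
    · obtain rfl : j = 1 := by omega
      rw [h3]
      simp [v2]

theorem dmx (hH : HvpStmt) : DmxStmt := by
  intro n R hL
  have hn := hL.pos
  -- the first divisor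
  obtain ⟨d, hdn, hd⟩ := exists_div n hn (fun c => R.R 0 (sg 0 2) (sg 0 (2 + c)))
    (R.refl _ _)
    (by
      intro c c' h h'
      refine R.trans h' ?_
      exact e0 (R.add (fun _ => c') h) (by simp [sg]) (by simp [sg, add_assoc]))
    (by
      intro c c' h hm
      refine R.trans h ?_
      have h1 := (hH n R hL 0 (sg 0 (2 + c)) 0 (le_refl _)).2 (2 + c') (by simp [sg])
        (by omega) (by
          have : sg 0 (2 + c) 0 = 2 + c := by simp [sg]
          rw [this]
          exact Nat.ModEq.add_left 2 hm)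
      exact e0 h1 (by simp [sg]) (by simp))
  -- the second divisor
  obtain ⟨m, hmn, hm⟩ := exists_div n hn (fun c => R.R 1 (v2 (2 + c) 2) (v2 2 (2 + c)))
    (R.refl _ _)
    (by
      intro c c' h h'
      have h1 : R.R 1 (v2 (2 + (c + c')) 2) (v2 (2 + c') (2 + c)) :=
        e1 (R.add (v2 c' 0) h) (by simp [v2, add_assoc]) (by simp [v2]) (by simp [v2])
          (by simp [v2])
      have h2 : R.R 1 (v2 (2 + c') (2 + c)) (v2 2 (2 + (c + c'))) :=
        e1 (R.add (v2 0 c) h') (by simp [v2]) (by simp [v2]) (by simp [v2])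
          (by
            simp [v2]
            omega)
      exact R.trans h1 h2)
    (by
      intro c c' h hmod
      have h1 := (hH n R hL 1 (v2 (2 + c) 2) 0 (by omega)).2 (2 + c') (by simp [v2])
        (by omega) (by
          have : v2 (2 + c) 2 0 = 2 + c := by simp [v2]
          rw [this]
          exact Nat.ModEq.add_left 2 hmod)
      have h2 := (hH n R hL 1 (v2 2 (2 + c)) 1 (by omega)).2 (2 + c') (by simp [v2])
        (by omega) (by
          have : v2 2 (2 + c) 1 = 2 + c := by simp [v2]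
          rw [this]
          exact Nat.ModEq.add_left 2 hmod)
      have h3 : R.R 1 (v2 (2 + c) 2) (v2 (2 + c') 2) :=
        e1 h1 (by simp [v2]) (by simp [v2]) (by simp) (by simp [Function.update, v2])
      have h4 : R.R 1 (v2 2 (2 + c)) (v2 2 (2 + c')) :=
        e1 h2 (by simp [v2]) (by simp [v2]) (by simp [Function.update, v2]) (by simp)
      exact R.trans (R.symm h3) (R.trans h h4))
  refine ⟨d, m, ?_, hdn, hd, hm⟩
  -- `m ∣ d`
  refine (hm d).1 ?_
  have hdd : R.R 0 (sg 0 2) (sg 0 (2 + d)) := (hd d).2 (dvd_refl d)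
  have b0 : BMap 0 1 (fun _ => 0) := ⟨fun _ _ _ _ => le_refl _, fun _ _ => by omega⟩
  have b1 : BMap 0 1 (fun _ => 1) := ⟨fun _ _ _ _ => le_refl _, fun _ _ => le_refl _⟩
  have p0 := R.add (v2 0 2) (R.push 1 (fun _ => 0) b0 hdd)
  have p1 := R.add (v2 2 0) (R.push 1 (fun _ => 1) b1 hdd)
  have q0 : R.R 1 (v2 2 2) (v2 (2 + d) 2) :=
    e1 p0 (by simp [psh, v2, sg]) (by simp [psh, v2, sg]) (by simp [psh, v2, sg])
      (by simp [psh, v2, sg])
  have q1 : R.R 1 (v2 2 2) (v2 2 (2 + d)) :=
    e1 p1 (by simp [psh, v2, sg]) (by simp [psh, v2, sg]) (by simp [psh, v2, sg])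
      (by simp [psh, v2, sg])
  exact R.trans (R.symm q0) q1

end Pool.Agent.MWL.H51
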